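import Pool.Agent.Lib.MP_28dc30_nt.Final

/-!
# MP_28dc30_nt, Q1: `gcd([β [α b^m]^2], b^m) < b^(ε m)` for all large `m`

The proof: with `A = [α b^m]`, `f = [β A^2]` the vector `(b^(2m), b^m A, f)` makes three linear
forms small.  If `α β` is rational the claim reduces to Ridout's theorem.  If `α β` is irrational,
Ridout's theorem and Dirichlet's theorem give two independent small integer vectors orthogonal to
`(b^(2m), b^m A, f)`, and a lemma on families of hyperplanes spanned by small and highly divisible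
integer vectors (auxiliary polynomial, Siegel's lemma, Roth's lemma) gives a contradiction.
Everything (Roth's lemma, Ridout's theorem, the hyperplane lemma) is proved in
`Pool.Agent.Lib.MP_28dc30_nt`.
-/

namespace Pool.Agent.Results.MP_28dc30_nt.GcdBound

/-- For every integer base `b ≥ 2`, all irrational real algebraic numbers `α`, `β` and every
`ε > 0`, there is `M` such that `gcd([β [α b^m]^2], b^m) < b^(ε m)` for all `m ≥ M`. -/
theorem result (b : ℕ) (hb : 2 ≤ b) (α β : ℝ) (hα : Irrational α) (hβ : Irrational β)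
    (hα' : IsAlgebraic ℚ α) (hβ' : IsAlgebraic ℚ β) (ε : ℝ) (hε : 0 < ε) :
    ∃ M : ℕ, ∀ m : ℕ, M ≤ m →
      ((Int.gcd ⌊β * ((⌊α * (b : ℝ) ^ m⌋ : ℤ) : ℝ) ^ 2⌋ ((b : ℤ) ^ m) : ℕ) : ℝ) <
        (b : ℝ) ^ (ε * (m : ℝ)) := by
  obtain ⟨M, hM⟩ := SB.gcd_lt b hb α β hα hβ hα' hβ' ε hε
  exact ⟨M, fun m hm => hM m hm⟩

end Pool.Agent.Results.MP_28dc30_nt.GcdBound
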